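import Pool.Agent.H559.CC.Main
import Pool.Agent.H559.CC.Asy
import Pool.Agent.H559.HY.CutW

set_option autoImplicit false

/-!
# Exact-length Cunningham chains of the second kind in the random primes

For every prime `q` a residue class `a q` modulo `q` is drawn uniformly and independently. The random primes are the
integers `v ≥ 3` which are, for all primes `q ≤ z v`, not in the class `0` modulo `q` if `q ≤ (log v) ^ c`, and not in the
class `a q` modulo `q` if `q > (log v) ^ c`. This is the model of Banks, Ford and Tao (*Large prime gaps and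
probabilistic models*) in which the small primes sieve out the class `0` as they do for the true primes. The sieving
limit `z` is any nondecreasing function for which `∏_{q ≤ z v} (1 - 1 / q)` is asymptotic to `1 / log v`; the choice `zBFT`
of Banks, Ford and Tao is one of them. The exponent `c` is any number larger than `1`.

The Cunningham sequence of the second kind which starts at `p = n + 1` has the term `2 ^ t * n + 1` at time `t`. `Pattern A T B n`
says that among the terms at the times `0, …, T` exactly those at the times `t ∈ B` are in `A`. For `T = k`, `B = {0, …, k - 1}` the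
number `n + 1` starts a chain of exact length `k`; for `T = k + 1`, `B = {1, …, k}` the number `2 n + 1` starts a chain
of exact length `k` which cannot be continued backwards either.

The theorem, for the set `R` of the random primes: (1) almost surely, for all `T` and all `B ⊆ {0, …, T}` the number of the
`n ∈ (x, x + y]` with `Pattern R T B n` is asymptotic to `S B * y / (log x) ^ |B|`, uniformly for `x ^ δ ≤ y ≤ x`, with the
positive constant `S B` of Hardy and Littlewood. (2) For all `T`, `B` there is `C` such that almost surely, for all large `x`, some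
`n ∈ (x, x + (log x) ^ C]` has `Pattern R T B n`. (3) For all `k ≥ 1` there is `C` such that almost surely, for all large `x`, some
`p ∈ (x, x + (log x) ^ C]` starts a chain of exact length `k` and is not `2 q - 1` with `q ∈ R`.
-/

open MeasureTheory ProbabilityTheory Filter Topology

namespace Pool.Agent.Results.MP_39b545_nt.ExactChainsRandomSieve

/-- `V m = ∏ (1 - 1 / q)` over the primes `q ≤ m` -/
noncomputable def V (m : ℕ) : ℝ := ∏ q ∈ (Finset.range (m + 1)).filter Nat.Prime, (1 - 1 / (q : ℝ))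

/-- the classes `a q` are independent, and `a q` is uniform on `0, …, q - 1` for every prime `q` -/
structure Model {Ω : Type} [MeasurableSpace Ω] (P : Measure Ω) (a : ℕ → Ω → ℕ) : Prop where
  measurable : ∀ q, Measurable (a q)
  independent : iIndepFun a P
  uniform : ∀ q, q.Prime → ∀ r < q, P.real {ω | a q ω = r} = 1 / q

/-- the sieving limit of Banks, Ford and Tao: the largest `m` with `∏_{q ≤ m} (1 - 1 / q)⁻¹ ≤ log n` -/
noncomputable def zBFT (n : ℕ) : ℕ := sSup {m : ℕ | (V m)⁻¹ ≤ Real.log n}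

/-- the admissible sieving limits: the density of the random primes near `v` is asymptotic to `1 / log v` -/
def Limit (z : ℕ → ℕ) : Prop := Monotone z ∧ Tendsto (fun v => V (z v) * Real.log v) atTop (𝓝 1)

open Classical in
/-- the set of the random primes of a sample -/
def R {Ω : Type} (z : ℕ → ℕ) (c : ℝ) (a : ℕ → Ω → ℕ) (ω : Ω) : Set ℕ :=
  {v | 3 ≤ v ∧ ∀ q ≤ z v, q.Prime → v % q ≠ if (q : ℝ) ≤ Real.log v ^ c then 0 else a q ω}

/-- among the terms `2 ^ t * n + 1` at the times `t = 0, …, T` exactly those at the times of `B` are in `A` -/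
def Pattern (A : Set ℕ) (T : ℕ) (B : Finset ℕ) (n : ℕ) : Prop := ∀ t ≤ T, (2 ^ t * n + 1 ∈ A ↔ t ∈ B)

/-- the number of the `n ∈ (x, x + y]` with the pattern -/
noncomputable def count (A : Set ℕ) (T : ℕ) (B : Finset ℕ) (x y : ℕ) : ℕ :=
  {n : ℕ | x < n ∧ n ≤ x + y ∧ Pattern A T B n}.ncard

/-- `p` starts a chain of exact length `k` (with `A` in place of the set of the primes) -/
def Starts (A : Set ℕ) (k p : ℕ) : Prop := (∀ i < k, 2 ^ i * (p - 1) + 1 ∈ A) ∧ 2 ^ k * (p - 1) + 1 ∉ A

/-- `ω_B(p)`: the number of the `n` modulo `p` with `∏_{t ∈ B} (2 ^ t * n + 1) = 0` modulo `p` -/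
def omega (B : Finset ℕ) (p : ℕ) : ℕ := ((Finset.range p).filter fun n : ℕ => p ∣ ∏ t ∈ B, (2 ^ t * n + 1)).card

/-- the partial products of the constant of Hardy and Littlewood of the times `B` -/
noncomputable def partialS (B : Finset ℕ) (x : ℕ) : ℝ :=
  ∏ p ∈ (Finset.range (x + 1)).filter Nat.Prime, (1 - (omega B p : ℝ) / p) / (1 - 1 / (p : ℝ)) ^ B.card

theorem result :
    (∃ (Ω : Type) (_ : MeasurableSpace Ω) (P : Measure Ω) (a : ℕ → Ω → ℕ), Model P a) ∧ Limit zBFT ∧
    (∃ S : Finset ℕ → ℝ, (∀ B, 0 < S B ∧ Tendsto (partialS B) atTop (𝓝 (S B))) ∧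
      ∀ z : ℕ → ℕ, Limit z → ∀ c : ℝ, 1 < c →
        ∀ (Ω : Type) [MeasurableSpace Ω] (P : Measure Ω) (a : ℕ → Ω → ℕ), Model P a →
          ∀ᵐ ω ∂P, ∀ (T : ℕ) (B : Finset ℕ), (∀ t ∈ B, t ≤ T) → ∀ δ ε : ℝ, 0 < δ → 0 < ε →
            ∀ᶠ x : ℕ in atTop, ∀ y : ℕ, (x : ℝ) ^ δ ≤ y → y ≤ x →
              |(count (R z c a ω) T B x y : ℝ) * Real.log x ^ B.card / y - S B| ≤ ε) ∧
    (∀ c : ℝ, 1 < c → ∀ (T : ℕ) (B : Finset ℕ), ∃ C : ℕ, ∀ z : ℕ → ℕ, Limit z →
        ∀ (Ω : Type) [MeasurableSpace Ω] (P : Measure Ω) (a : ℕ → Ω → ℕ), Model P a →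
          ∀ᵐ ω ∂P, ∀ᶠ x : ℕ in atTop, ∃ n : ℕ, x < n ∧ (n : ℝ) ≤ x + Real.log x ^ C ∧ Pattern (R z c a ω) T B n) ∧
    ∀ c : ℝ, 1 < c → ∀ k : ℕ, 1 ≤ k → ∃ C : ℕ, ∀ z : ℕ → ℕ, Limit z →
        ∀ (Ω : Type) [MeasurableSpace Ω] (P : Measure Ω) (a : ℕ → Ω → ℕ), Model P a →
          ∀ᵐ ω ∂P, ∀ᶠ x : ℕ in atTop, ∃ p : ℕ, x < p ∧ (p : ℝ) ≤ x + Real.log x ^ C ∧ Starts (R z c a ω) k p ∧
            ∀ q ∈ R z c a ω, 2 * q - 1 ≠ p := by
  classical
  refine ⟨?_, ⟨Pool.Agent.T2H32.BF.z0_mono, Pool.Agent.T2H32.BF.z0_lim⟩, ?_, ?_, ?_⟩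
  · obtain ⟨Ω, i, P, a, h⟩ := Pool.Agent.T2H32.BF.exists_model
    exact ⟨Ω, i, P, a, h.measurable, h.independent, h.uniform⟩
  · refine ⟨fun B => (Pool.Agent.H559.CC.const B).choose, fun B => (Pool.Agent.H559.CC.const B).choose_spec, ?_⟩
    intro z hz c hc Ω _ P a hmod
    have h : Pool.Agent.T2H32.BF.Model P a := ⟨hmod.measurable, hmod.independent, hmod.uniform⟩
    filter_upwards [Pool.Agent.H559.HY.ae_OK h z (Pool.Agent.H559.HY.WW c) hz (Pool.Agent.H559.HY.cut_WW c hc)]
      with ω hω T B hB δ ε hδ hε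
    have e : R z c a ω = Pool.Agent.H559.HY.RS z (Pool.Agent.H559.HY.WW c) (fun p => a p ω) :=
      Pool.Agent.H559.IX.Sys.R0_eq z c (fun p => a p ω)
    rw [e]
    exact Pool.Agent.H559.CC.nE_lim z (Pool.Agent.H559.HY.WW c) hz (Pool.Agent.H559.HY.cut_WW c hc) _ hω T B hB _
      (Pool.Agent.H559.CC.const B).choose_spec.2 δ ε hδ hε
  · intro c hc T B
    obtain ⟨C, hC⟩ := Pool.Agent.H559.CC.patterns c hc T B
    refine ⟨C, fun z hz Ω _ P a hmod => ?_⟩
    exact hC z hz Ω P a ⟨hmod.measurable, hmod.independent, hmod.uniform⟩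
  · intro c hc k hk
    obtain ⟨C, hC⟩ := Pool.Agent.H559.CC.chains c hc k hk
    refine ⟨C, fun z hz Ω _ P a hmod => ?_⟩
    filter_upwards [hC z hz Ω P a ⟨hmod.measurable, hmod.independent, hmod.uniform⟩] with ω hω
    filter_upwards [hω] with x hx
    obtain ⟨p, p1, p2, p3, p4, p5⟩ := hx
    exact ⟨p, p1, p2, ⟨p3, p4⟩, p5⟩

end Pool.Agent.Results.MP_39b545_nt.ExactChainsRandomSieve
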