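import Mathlib
import Pool.Agent.H522.TransG2

/-!
# Exact patterns of primes of Cunningham orbits of the second kind inside small random sets of times

The orbit of `n + 1` under `x ↦ 2 x - 1` has the term `2 ^ t n + 1` at time `t`. A finite set `B` of times is an exact
pattern if for many `n` the term at time `t` is prime exactly for `t ∈ B` (for all `t ≤ W`, for every `W`). If `b` is the
least element of `B` and `b + 1 ∉ B`, then the primes `p = 2 ^ b n + 1` start chains of exact length one, and all the later
primes of the orbit of `p` are known; in general the question is whether `{0, 1, …, k - 1}` is an exact pattern.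

The theorem of Maynard and Tao gives an exact pattern with `k` elements inside every set of `exp ((4 + o(1)) k)` times.
Nothing is known for small sets of times, of size `k ^ C`, say. We show that a RANDOM set of only `C k ^ 2 t` times
contains an exact pattern with `k` elements with probability at least `1 - 2 exp (- t)`, if the times are random on a
short scale only: let `R_1, …, R_t` be ARBITRARY sets of at least `exp ((4 + δ) k + C)` times (for instance the intervals
`[w_i, w_i + exp ((4 + δ) k + C)]` for arbitrary `w_i`, which may be very far from each other), and choose `h_i ∈ R_i`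
uniformly and independently. Then `{h_1, …, h_t}` contains an exact pattern with at least `k` elements, with probability
at least `1 - 2 exp (- t / (C k ^ 2))`. No local condition is needed.

Method: bounds for all the correlations of the primes in the measure of Maynard and Tao, averages over transversals,
a second moment argument in a product space and independence of blocks (`Pool.Agent.H522`).
-/

set_option autoImplicit false

open Finset Filter

namespace Pool.Agent.Results.MP_39b545_nt.RandomTimes

/-- `P n` holds for many `n`: for every `η > 0` there are arbitrarily large `x` such that it holds for at least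
`x ^ (1 - η)` of the natural numbers `n ≤ x` -/
def Many (P : ℕ → Prop) : Prop := ∀ η : ℝ, 0 < η → ∃ᶠ x : ℝ in atTop,
  x ^ (1 - η) ≤ (Set.ncard {n : ℕ | (n : ℝ) ≤ x ∧ P n} : ℝ)

/-- `B` is the exact set of the prime times, up to every time `W`, of the orbits of many `n + 1` -/
def ExactPattern (B : Finset ℕ) : Prop :=
  ∀ W : ℕ, Many fun n => ∀ t ≤ W, ((2 ^ t * n + 1).Prime ↔ t ∈ B)

/-- the set of the times `h i` contains an exact pattern with at least `k` elements -/
def Contains {t : ℕ} (k : ℕ) (h : Fin t → ℕ) : Prop :=
  ∃ B : Finset ℕ, k ≤ B.card ∧ (∀ b ∈ B, ∃ i, h i = b) ∧ ExactPattern B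

/-- **Exact patterns of primes of Cunningham orbits inside small random sets of times.** -/
theorem result (δ : ℝ) (hδ : 0 < δ) : ∃ C : ℝ, 0 < C ∧ ∀ (k t : ℕ) (R : Fin t → Finset ℕ), 1 ≤ k →
    (∀ i, Real.exp ((4 + δ) * k + C) ≤ (R i).card) →
    (Set.ncard {h : Fin t → ℕ | (∀ i, h i ∈ R i) ∧ ¬ Contains k h} : ℝ) ≤
      2 * Real.exp (-(t / (C * (k : ℝ) ^ 2))) * ∏ i, ((R i).card : ℝ) := by
  classical
  obtain ⟨C, hC, hmain⟩ := Pool.Agent.H522.trans_mainG δ hδ
  refine ⟨C, hC, ?_⟩
  intro k t R hk hR
  have hsp : Pool.Agent.H522.HasSP0 ExactPattern := by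
    intro m T hm h1 h2
    obtain ⟨lam, h3, h4, h5⟩ := Pool.Agent.H522.spread0E m hm (fun t : ℕ => 2 ^ t) (fun _ => 1) T h1 h2
      (Pool.Agent.H522.okE_second T)
    refine ⟨lam, h3, fun S hS W η hη => ?_, ?_⟩
    · refine (h4 S hS (Finset.range (W + 1)) η hη).mono fun x hx => hx.trans ?_
      have h1 : {n : ℕ | (n : ℝ) ≤ x ∧ ∀ i ∈ Finset.range (W + 1), ((2 ^ i * n + 1).Prime ↔ i ∈ S)} ⊆
          {n : ℕ | (n : ℝ) ≤ x ∧ ∀ t ≤ W, ((2 ^ t * n + 1).Prime ↔ t ∈ S)} :=
        fun n hn => ⟨hn.1, fun t ht => hn.2 t (Finset.mem_range.2 (by omega))⟩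
      exact_mod_cast Set.ncard_le_ncard h1 (Pool.Agent.H522.finite_le _ x)
    · exact h5
  have h1 := hmain ℕ ExactPattern hsp k t R hk hR
  have h3 : {h : Fin t → ℕ | (∀ i, h i ∈ R i) ∧ ¬ Contains k h} =
      (((Fintype.piFinset R).filter (fun g => ¬ Pool.Agent.H522.HasPatG ExactPattern k Finset.univ g) :
        Finset (Fin t → ℕ)) : Set (Fin t → ℕ)) := by
    ext h
    rw [Finset.coe_filter]
    simp only [Fintype.mem_piFinset]
    have h4 : Contains k h ↔ Pool.Agent.H522.HasPatG ExactPattern k Finset.univ h := by
      constructor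
      · rintro ⟨B, h5, h6, h7⟩
        exact ⟨B, h5, h7, fun b hb => by
          obtain ⟨i, hi⟩ := h6 b hb
          exact ⟨i, Finset.mem_univ _, hi⟩⟩
      · rintro ⟨B, h5, h7, h6⟩
        exact ⟨B, h5, fun b hb => by
          obtain ⟨i, _, hi⟩ := h6 b hb
          exact ⟨i, hi⟩, h7⟩
    exact and_congr Iff.rfl (not_congr h4)
  rw [h3, Set.ncard_coe_finset]
  exact h1

end Pool.Agent.Results.MP_39b545_nt.RandomTimes
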